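import Pool.Agent.Helper98.GX.St4
import Pool.Agent.Helper53.CX.M_Ext
import Pool.Agent.Helper53.CX.M_Mon
import Pool.Agent.Helper53.CX.M_Pad

/-!
# Project GX, module PJK: a nef b-divisor of degree one is a linear projection
-/

set_option autoImplicit false

open scoped BigOperators

namespace Pool.Agent.Helper69.GX

open Pool.Agent.Helper98.GX
open Pool.Agent.Helper53.CX (DivVal LinSys IsNefCartier)

section orders

variable {K : Type} [Field K] [Algebra ℂ K]

private theorem ord_one_PJK (v : DivVal K) : v.ord 1 = 0 := by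
  have h := v.ord_mul 1 1 one_ne_zero one_ne_zero
  rw [mul_one] at h
  omega

private theorem ord_pow_PJK (v : DivVal K) (u : K) (hu : u ≠ 0) (m : ℕ) :
    v.ord (u ^ m) = (m : ℤ) * v.ord u := by
  induction m with
  | zero => rw [pow_zero, ord_one_PJK, Nat.cast_zero, zero_mul]
  | succ m ih =>
    rw [pow_succ, v.ord_mul _ _ (pow_ne_zero m hu) hu, ih]
    push_cast
    ring

private theorem div_twist_PJK (F F' : LinSys K) (w : K) (hw : w ≠ 0)
    (h1 : ∀ f ∈ F.gens, f * w ∈ F'.gens) (h2 : ∀ f' ∈ F'.gens, ∃ f ∈ F.gens, f' = f * w)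
    (v : DivVal K) : F'.div v = F.div v - v.ord w := by
  apply le_antisymm
  · unfold LinSys.div
    apply Finset.sup'_le
    intro f' hf'
    obtain ⟨f, hf, rfl⟩ := h2 f' hf'
    rw [v.ord_mul f w (F.ne_zero f hf) hw]
    have h3 := Finset.le_sup' (fun f => - v.ord f) hf
    have h4 : - v.ord f ≤ F.gens.sup' F.nonempty (fun f => - v.ord f) := h3
    omega
  · obtain ⟨f, hf, hfe⟩ := Finset.exists_mem_eq_sup' F.nonempty (fun f => - v.ord f)
    have h3 : F.div v = - v.ord f := hfe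
    have h4 := Finset.le_sup' (fun f => - v.ord f) (h1 f hf)
    have h5 : - v.ord (f * w) ≤ F'.div v := h4
    rw [v.ord_mul f w (F.ne_zero f hf) hw] at h5
    omega

private theorem nef_twist_PJK (M : DivVal K → ℤ) (hM : IsNefCartier M) (u : K) (hu : u ≠ 0) :
    IsNefCartier (fun v => M v - v.ord u) := by
  classical
  obtain ⟨A, hA⟩ := hM
  refine ⟨A, fun m hm => ?_⟩
  obtain ⟨N, F, hN, hF⟩ := hA m hm
  have hne : ∀ f ∈ F.gens.image (fun f => f * u ^ (N * m)), f ≠ 0 := by
    intro f hf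
    obtain ⟨g, hg, rfl⟩ := Finset.mem_image.1 hf
    exact mul_ne_zero (F.ne_zero g hg) (pow_ne_zero _ hu)
  refine ⟨N, ⟨F.gens.image (fun f => f * u ^ (N * m)), F.nonempty.image _, hne⟩, hN,
    fun v => ?_⟩
  rw [div_twist_PJK F ⟨F.gens.image (fun f => f * u ^ (N * m)), F.nonempty.image _, hne⟩
    (u ^ (N * m)) (pow_ne_zero _ hu) (fun f hf => Finset.mem_image_of_mem _ hf)
    (fun f' hf' => by
      obtain ⟨g, hg, hge⟩ := Finset.mem_image.1 hf'
      exact ⟨g, hg, hge.symm⟩) v, ← hF v, ord_pow_PJK v u hu]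
  push_cast
  ring

end orders

section charts

variable {K : Type} [Field K] [Algebra ℂ K] {V : NormalProj K} {r : ℕ} {B : ClassBasis V r} {n : ℕ}
  {L : LogCoord K n} {Fr : Frame B L} {β : Fin r → Fin (n + r)} {L' : LogCoord K n}
  {e : Fin n → Fin (n + r)}

private theorem be_ne_PJK (hc : IsChart Fr β L' e) (l : Fin r) (j : Fin n) : β l ≠ e j := by
  intro h
  have h1 := (hc.range (e j)).1 ⟨j, rfl⟩
  apply h1
  rw [← h, hc.base]

private theorem sum_chart_PJK (hc : IsChart Fr β L' e) (F : Fin (n + r) → K) :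
    ∑ a, F a = ∑ l, F (β l) + ∑ j, F (e j) := by
  have hbij : Function.Bijective (Sum.elim β e) := by
    constructor
    · rintro (l | j) (l' | j') h
      · have h1 : β l = β l' := h
        rw [← hc.base l, ← hc.base l', h1]
      · exact absurd h (be_ne_PJK hc l j')
      · exact absurd h.symm (be_ne_PJK hc l' j)
      · have h1 : e j = e j' := h
        rw [hc.inj h1]
    · intro a
      by_cases ha : a = β (Fr.bl a)
      · exact ⟨Sum.inl (Fr.bl a), ha.symm⟩
      · obtain ⟨j, hj⟩ := (hc.range a).2 ha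
        exact ⟨Sum.inr j, hj⟩
  rw [← Function.Bijective.sum_comp hbij F, Fintype.sum_sum_type]
  rfl

private theorem sec_chart_PJK (hc : IsChart Fr β L' e)
    (σ : Pool.Agent.Helper53.CX.Kn n ≃ₐ[ℂ] K)
    (hσ : ∀ j, σ (Pool.Agent.Helper53.CX.x j) = L'.z j) (k : Fin r) (x : Fin (n + r) → ℂ)
    (hx : x ∈ Blk Fr.bl k) :
    Fr.sec x = Fr.g (β k) * σ (Pool.Agent.Helper53.CX.lfv
      (Fin.cons (x (β k)) (fun j => x (e j)) : Fin (n + 1) → ℂ)) := by
  have hx' : ∀ a, Fr.bl a ≠ k → x a = 0 := hx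
  have h1 : σ (Pool.Agent.Helper53.CX.lfv
      (Fin.cons (x (β k)) (fun j => x (e j)) : Fin (n + 1) → ℂ)) =
      algebraMap ℂ K (x (β k)) + ∑ j, algebraMap ℂ K (x (e j)) * L'.z j := by
    unfold Pool.Agent.Helper53.CX.lfv
    rw [Fin.sum_univ_succ]
    have e1 : (Pool.Agent.Helper53.CX.hx 0 : Pool.Agent.Helper53.CX.Kn n) = 1 := rfl
    have e2 : ∀ j : Fin n, (Pool.Agent.Helper53.CX.hx j.succ : Pool.Agent.Helper53.CX.Kn n) =
      Pool.Agent.Helper53.CX.x j := fun _ => rfl
    rw [e1, mul_one, map_add, map_sum, Fin.cons_zero, AlgEquiv.commutes]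
    congr 1
    refine Finset.sum_congr rfl fun j _ => ?_
    rw [e2, map_mul, hσ, Fin.cons_succ, AlgEquiv.commutes]
  rw [h1]
  unfold Frame.sec
  rw [sum_chart_PJK hc, mul_add, Finset.mul_sum]
  congr 1
  · rw [Finset.sum_eq_single k]
    · ring
    · intro l _ hl
      have h2 : x (β l) = 0 := hx' _ (by rw [hc.base]; exact hl)
      rw [h2, map_zero, zero_mul]
    · intro h
      exact absurd (Finset.mem_univ k) h
  · refine Finset.sum_congr rfl fun j _ => ?_
    by_cases hj : Fr.bl (e j) = k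
    · rw [hc.z_eq, hj]
      have h3 := Fr.ne (β k)
      field_simp
    · rw [hx' _ hj, map_zero, zero_mul, zero_mul, mul_zero]

end charts

/-- the coordinates of a vector of the block -/
private def TT_PJK {n r : ℕ} (b : Fin (n + r)) (e : Fin n → Fin (n + r)) :
    (Fin (n + r) → ℂ) →ₗ[ℂ] (Fin (n + 1) → ℂ) where
  toFun x := Fin.cons (x b) (fun j => x (e j))
  map_add' := by
    intro x y
    funext i
    refine Fin.cases ?_ ?_ i
    · rfl
    · intro j
      rfl
  map_smul' := by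
    intro c x
    funext i
    refine Fin.cases ?_ ?_ i
    · rfl
    · intro j
      rfl

/-- a linear form with a nonzero coefficient of weight `-1` -/
private theorem lin_PJK {n : ℕ} (w : Fin n → ℤ) (c : Fin (n + 1) → ℂ) (j : Fin n)
    (hj : c j.succ ≠ 0) (hw : w j = -1) (v : DivVal (Pool.Agent.Helper53.CX.Kn n))
    (hv : v.ord = Pool.Agent.Helper53.CX.monOrd w) :
    v.ord (Pool.Agent.Helper53.CX.lfv c) ≤ -1 := by
  obtain ⟨p, hp⟩ : ∃ p : Pool.Agent.Helper53.CX.Pn n, p =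
    MvPolynomial.C (c 0) + ∑ i : Fin n, MvPolynomial.C (c i.succ) * MvPolynomial.X i := ⟨_, rfl⟩
  have h1 : Pool.Agent.Helper53.CX.lfv c =
      algebraMap (Pool.Agent.Helper53.CX.Pn n) (Pool.Agent.Helper53.CX.Kn n) p := by
    unfold Pool.Agent.Helper53.CX.lfv
    rw [Fin.sum_univ_succ, hp, map_add, map_sum]
    have e1 : (Pool.Agent.Helper53.CX.hx 0 : Pool.Agent.Helper53.CX.Kn n) = 1 := rfl
    have e2 : ∀ j : Fin n, (Pool.Agent.Helper53.CX.hx j.succ : Pool.Agent.Helper53.CX.Kn n) =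
      Pool.Agent.Helper53.CX.x j := fun _ => rfl
    have e3 : ∀ a : ℂ, algebraMap ℂ (Pool.Agent.Helper53.CX.Kn n) a =
        algebraMap (Pool.Agent.Helper53.CX.Pn n) (Pool.Agent.Helper53.CX.Kn n)
          (MvPolynomial.C a) := by
      intro a
      rw [IsScalarTower.algebraMap_apply ℂ (Pool.Agent.Helper53.CX.Pn n)
        (Pool.Agent.Helper53.CX.Kn n)]
      rfl
    rw [e1, mul_one, e3]
    congr 1
    refine Finset.sum_congr rfl fun i _ => ?_
    rw [e2, map_mul, e3]
    rfl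
  have h2 : p.coeff (Finsupp.single j 1) = c j.succ := by
    rw [hp, MvPolynomial.coeff_add, MvPolynomial.coeff_C, MvPolynomial.coeff_sum]
    have h3 : (0 : Fin n →₀ ℕ) ≠ Finsupp.single j 1 := by
      intro h
      have h4 := congrArg (fun f : Fin n →₀ ℕ => f j) h
      simp at h4
    rw [if_neg h3, zero_add, Finset.sum_eq_single j]
    · rw [MvPolynomial.coeff_C_mul, MvPolynomial.coeff_X, if_pos rfl, mul_one]
    · intro i _ hi
      rw [MvPolynomial.coeff_C_mul, MvPolynomial.coeff_X, if_neg, mul_zero]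
      intro h
      have h4 := congrArg (fun f : Fin n →₀ ℕ => f i) h
      simp [hi] at h4
    · intro h
      exact absurd (Finset.mem_univ j) h
  have hp0 : p ≠ 0 := by
    intro h
    rw [h, MvPolynomial.coeff_zero] at h2
    exact hj h2.symm
  have hmem : Finsupp.single j 1 ∈ p.support := by
    rw [MvPolynomial.mem_support_iff, h2]
    exact hj
  have h5 := (Pool.Agent.Helper53.CX.hExt n (Pool.Agent.Helper53.CX.monO w)
    (Pool.Agent.Helper53.CX.hMon n w).1 (Pool.Agent.Helper53.CX.hMon n w).2).2.2.2 p hp0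
  have h6 : v.ord (Pool.Agent.Helper53.CX.lfv c) = Pool.Agent.Helper53.CX.monO w p := by
    rw [hv, h1]
    exact h5
  have h7 := Pool.Agent.Helper53.CX.Mon_le w hp0 hmem
  have h8 : Pool.Agent.Helper53.CX.wt w (Finsupp.single j 1) = -1 := by
    unfold Pool.Agent.Helper53.CX.wt
    rw [Finset.sum_eq_single j]
    · rw [Finsupp.single_eq_same, hw]
      norm_num
    · intro i _ hi
      rw [Finsupp.single_eq_of_ne hi]
      simp
    · intro h
      exact absurd (Finset.mem_univ j) h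
  rw [h6]
  omega

/-- PJK. -/
theorem hPJK (hBAS : StBAS) (hLPX : StLPX) (hSIG : StSIG) (hPRF : StPRF) (hPRI : StPRI)
    (hSEC : StSEC) (hNRM : StNRM) (hPOL : StPOL) (hTRO : StTRO)
    (hPrj : Pool.Agent.Helper53.CX.StPrj) (hVmin : Pool.Agent.Helper53.CX.StVmin) : StPJK := by
  intro K _ _ V r B n L Fr hn M hM hdeg
  obtain ⟨β, hβ⟩ : ∃ β : Fin r → Fin (n + r), ∀ k, Fr.bl (β k) = k :=
    ⟨Function.surjInv Fr.surj, fun k => Function.surjInv_eq Fr.surj k⟩
  obtain ⟨L', e, hc⟩ := hLPX K V r B n L Fr β hβ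
  obtain ⟨σ, hσ⟩ := hSIG K V r B n L Fr β L' e hc
  obtain ⟨k, h0, hh0, hk1, hk2⟩ := hNRM K V r B n L Fr β hβ M hM hdeg
  obtain ⟨t1, -, t3⟩ := hTRO K n L' σ hσ
  obtain ⟨M1, hM1, hM1e⟩ := t3 M hM
  have hu0 : σ.symm h0 ≠ 0 := by
    intro h
    apply hh0
    have h1 := congrArg σ h
    rw [AlgEquiv.apply_symm_apply, map_zero] at h1
    exact h1
  obtain ⟨M', hM'⟩ : ∃ M' : DivVal (Pool.Agent.Helper53.CX.Kn n) → ℤ,
    M' = fun v => M1 v - v.ord (σ.symm h0) := ⟨_, rfl⟩
  have hM'nef : IsNefCartier M' := by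
    rw [hM']
    exact nef_twist_PJK M1 hM1 _ hu0
  have hM'v : ∀ (v : DivVal K) (v' : DivVal (Pool.Agent.Helper53.CX.Kn n)),
      (∀ f, v'.ord f = v.ord (σ f)) → M' v' = M v - v.ord h0 := by
    intro v v' hv
    rw [hM']
    show M1 v' - v'.ord (σ.symm h0) = M v - v.ord h0
    rw [hM1e v v' hv, hv, AlgEquiv.apply_symm_apply]
  -- the blocks
  have hgrp : Function.Surjective (fun j : Fin n => Fr.bl (e j)) := by
    intro l
    obtain ⟨β', hβ', hne⟩ := hBAS K V r B n L Fr (Fr.pr (β l)) (Fr.pr_mem _)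
    have h1 : β' l ≠ β (Fr.bl (β' l)) := by
      rw [hβ' l]
      intro h
      exact hne l (by rw [h])
    obtain ⟨j, hj⟩ := (hc.range (β' l)).2 h1
    refine ⟨j, ?_⟩
    show Fr.bl (e j) = l
    rw [hj, hβ' l]
  have hcond1 : ∀ (P : Pool.Agent.Helper53.CX.Pn n), Irreducible P →
      ∀ v : DivVal (Pool.Agent.Helper53.CX.Kn n),
      v.ord = Pool.Agent.Helper53.CX.padOrd P → M' v = 0 := by
    intro P hP v hv
    obtain ⟨q, hq, hqn, hqe⟩ := (hPRF K V r B n L Fr β L' e hc σ hσ).2 P hP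
    rw [hM'v q v (fun f => by rw [hqe f, hv]), hk2 q hq (hqn k), sub_self]
  have hprl : ∀ l, l ≠ k → Fr.pr (β l) ≠ Fr.pr (β k) := by
    intro l hl h
    apply hl
    have h1 := Fr.pr_inj h
    rw [← hβ l, ← hβ k, h1]
  have hcond2 : ∀ (l : Fin r) (v : DivVal (Pool.Agent.Helper53.CX.Kn n)),
      v.ord = Pool.Agent.Helper53.CX.monOrd
        (fun j => if (fun j : Fin n => Fr.bl (e j)) j = l then (-1 : ℤ) else 0) →
      M' v = if l = k then 1 else 0 := by
    intro l v hv
    have h1 : ∀ f, v.ord f = (Fr.pr (β l)).ord (σ f) := by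
      intro f
      rw [hPRI K V r B n L Fr β L' e hc σ hσ l f, hv]
    rw [hM'v (Fr.pr (β l)) v h1]
    by_cases hl : l = k
    · rw [if_pos hl, hk1 _ (Fr.pr_mem _) (by rw [hl])]
      ring
    · rw [if_neg hl, hk2 _ (Fr.pr_mem _) (hprl l hl), sub_self]
  have hPoly := hPOL n r (fun j : Fin n => Fr.bl (e j)) k M' hn hgrp hM'nef hcond1 hcond2
  obtain ⟨W', hW'0, hW'⟩ := hPrj n M' hn hPoly
  -- `W'` is supported in the block
  have hsupp : ∀ c ∈ W', ∀ j : Fin n, Fr.bl (e j) ≠ k → c j.succ = 0 := by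
    intro c hcW j hj
    by_contra hcj
    obtain ⟨v', hv', -⟩ := t1 (Fr.pr (β (Fr.bl (e j))))
    have h1 : v'.ord = Pool.Agent.Helper53.CX.monOrd
        (fun i => if (fun i : Fin n => Fr.bl (e i)) i = Fr.bl (e j) then (-1 : ℤ) else 0) := by
      funext f
      rw [hv' f]
      exact hPRI K V r B n L Fr β L' e hc σ hσ (Fr.bl (e j)) f
    have h2 := hcond2 (Fr.bl (e j)) v' h1
    rw [if_neg hj, hW'] at h2
    have hc0 : c ≠ 0 := by
      intro h
      apply hcj
      rw [h]
      rfl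
    have h3 := ((hVmin n v').2.1 W' hW'0).1 c hcW hc0
    have h4 := lin_PJK _ c j hcj (if_pos rfl) v' h1
    omega
  -- the space `W`
  obtain ⟨T, hT⟩ : ∃ T : (Fin (n + r) → ℂ) →ₗ[ℂ] (Fin (n + 1) → ℂ),
    T = TT_PJK (β k) e := ⟨_, rfl⟩
  have hTx : ∀ x, T x = Fin.cons (x (β k)) (fun j => x (e j)) := by
    intro x
    rw [hT]
    rfl
  obtain ⟨W, hW⟩ : ∃ W : Submodule ℂ (Fin (n + r) → ℂ), W = Blk Fr.bl k ⊓ W'.comap T := ⟨_, rfl⟩
  have hWle : W ≤ Blk Fr.bl k := by
    rw [hW]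
    exact inf_le_left
  have hWT : ∀ x ∈ W, T x ∈ W' := by
    intro x hx
    rw [hW] at hx
    exact hx.2
  have hTinj : ∀ x ∈ W, x ≠ 0 → T x ≠ 0 := by
    intro x hx hx0 hT0
    apply hx0
    have hxb : ∀ a, Fr.bl a ≠ k → x a = 0 := hWle hx
    rw [hTx] at hT0
    have e1 : x (β k) = 0 := by
      have := congrFun hT0 0
      exact this
    have e2 : ∀ j, x (e j) = 0 := by
      intro j
      have := congrFun hT0 j.succ
      rw [Fin.cons_succ] at this
      exact this
    funext a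
    by_cases ha : a = β (Fr.bl a)
    · by_cases hk : Fr.bl a = k
      · rw [hk] at ha
        rw [ha]
        exact e1
      · exact hxb a hk
    · obtain ⟨j, hj⟩ := (hc.range a).2 ha
      rw [← hj]
      exact e2 j
  have hTsurj : ∀ c ∈ W', ∃ x ∈ W, T x = c := by
    intro c hcW
    obtain ⟨x, hx⟩ : ∃ x : Fin (n + r) → ℂ, x = fun a =>
      (if a = β k then c 0 else 0) + ∑ j, (if a = e j then c j.succ else 0) := ⟨_, rfl⟩
    have hTc : T x = c := by
      rw [hTx]
      funext i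
      refine Fin.cases ?_ ?_ i
      · show x (β k) = c 0
        rw [hx]
        show (if β k = β k then c 0 else 0) + ∑ j, (if β k = e j then c j.succ else 0) = c 0
        rw [if_pos rfl, Finset.sum_eq_zero, add_zero]
        intro j _
        rw [if_neg (be_ne_PJK hc k j)]
      · intro j
        show x (e j) = c j.succ
        rw [hx]
        show (if e j = β k then c 0 else 0) + ∑ i, (if e j = e i then c i.succ else 0) = c j.succ
        rw [if_neg (fun h => be_ne_PJK hc k j h.symm), zero_add, Finset.sum_eq_single j]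
        · rw [if_pos rfl]
        · intro i _ hi
          rw [if_neg]
          intro h
          exact hi (hc.inj h).symm
        · intro h
          exact absurd (Finset.mem_univ j) h
    refine ⟨x, ?_, hTc⟩
    rw [hW]
    refine ⟨?_, ?_⟩
    · show ∀ a, Fr.bl a ≠ k → x a = 0
      intro a ha
      rw [hx]
      show (if a = β k then c 0 else 0) + ∑ j, (if a = e j then c j.succ else 0) = 0
      have h1 : a ≠ β k := by
        intro h
        apply ha
        rw [h, hβ k]
      rw [if_neg h1, zero_add]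
      apply Finset.sum_eq_zero
      intro j _
      by_cases hj : a = e j
      · rw [if_pos hj]
        apply hsupp c hcW j
        rw [← hj]
        exact ha
      · rw [if_neg hj]
    · show T x ∈ W'
      rw [hTc]
      exact hcW
  have hW0 : W ≠ ⊥ := by
    intro h
    apply hW'0
    rw [Submodule.eq_bot_iff]
    intro c hcW
    obtain ⟨x, hx, hxc⟩ := hTsurj c hcW
    rw [h, Submodule.mem_bot] at hx
    rw [← hxc, hx, map_zero]
  -- the minimum
  have hsec : ∀ x ∈ W, Fr.sec x = Fr.g (β k) * σ (Pool.Agent.Helper53.CX.lfv (T x)) := by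
    intro x hx
    rw [hTx]
    exact sec_chart_PJK hc σ hσ k x (hWle hx)
  have hord : ∀ (v : DivVal K) (v' : DivVal (Pool.Agent.Helper53.CX.Kn n)),
      (∀ f, v'.ord f = v.ord (σ f)) → ∀ x ∈ W, x ≠ 0 →
      v.ord (Fr.sec x) = v.ord (Fr.g (β k)) + v'.ord (Pool.Agent.Helper53.CX.lfv (T x)) := by
    intro v v' hv x hx hx0
    have h1 := (hSEC K V r B n L Fr).1 k x (hWle hx) hx0
    rw [hsec x hx] at h1 ⊢
    rw [v.ord_mul _ _ (left_ne_zero_of_mul h1) (right_ne_zero_of_mul h1), hv]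
  have hmin : ∀ (v : DivVal K) (v' : DivVal (Pool.Agent.Helper53.CX.Kn n)),
      (∀ f, v'.ord f = v.ord (σ f)) →
      Fr.smin v W = v.ord (Fr.g (β k)) + Pool.Agent.Helper53.CX.vmin v' W' := by
    intro v v' hv
    obtain ⟨s1, x1, hx1, hx10, hx1e⟩ := (hSEC K V r B n L Fr).2 v k W hWle hW0
    obtain ⟨m1, c1, hc1, hc10, hc1e⟩ := (hVmin n v').2.1 W' hW'0
    apply le_antisymm
    · obtain ⟨x2, hx2, hx2c⟩ := hTsurj c1 hc1
      have hx20 : x2 ≠ 0 := by
        intro h
        apply hc10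
        rw [← hx2c, h, map_zero]
      have h1 := s1 x2 hx2 hx20
      rw [hord v v' hv x2 hx2 hx20, hx2c, hc1e] at h1
      exact h1
    · have h1 := m1 (T x1) (hWT x1 hx1) (hTinj x1 hx1 hx10)
      rw [← hx1e, hord v v' hv x1 hx1 hx10]
      omega
  have hMv : ∀ v : DivVal K, M v = v.ord (h0 * Fr.g (β k)) - Fr.smin v W := by
    intro v
    obtain ⟨v', hv', -⟩ := t1 v
    rw [v.ord_mul _ _ hh0 (Fr.ne _), hmin v v' hv']
    have h1 := hM'v v v' hv'
    rw [hW'] at h1
    omega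
  refine ⟨k, W, h0 * Fr.g (β k), hW0, hWle, mul_ne_zero hh0 (Fr.ne _), hMv, ?_⟩
  intro q hq
  have h1 := hMv q
  rw [q.ord_mul _ _ hh0 (Fr.ne _)] at h1
  by_cases hqk : q = Fr.pr (β k)
  · have h2 := hk1 q hq hqk
    have h3 := Fr.div_self (β k)
    rw [hβ k, ← hqk] at h3
    omega
  · have h2 := hk2 q hq hqk
    have h3 := Fr.div_other (β k) q hq hqk
    rw [hβ k] at h3
    omega

end Pool.Agent.Helper69.GX
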